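import Pool.Agent.K3h63.IQ.Stm

/-!
# IQ brick REG (helper52, for helper63)
-/

set_option autoImplicit false

namespace Pool.Agent.K3h52.IQ

open Pool.Agent.K3h63.IQ

universe v w

section

variable {G : Type} [Group G] [Fintype G]

/-- the element of the group algebra with given coefficients -/
noncomputable def el (α : G → ℚ) : MonoidAlgebra ℚ G := ∑ g, MonoidAlgebra.single g (α g)

omit [Group G] in
lemma coeff_el (α : G → ℚ) (t : G) : (el α).coeff t = α t := by
  classical
  unfold el
  rw [MonoidAlgebra.coeff_sum, Finsupp.finsetSum_apply, Finset.sum_eq_single t]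
  · simp
  · intro b _ hb
    simp [hb]
  · intro h
    exact absurd (Finset.mem_univ t) h

lemma el_coeff (b : MonoidAlgebra ℚ G) : el (fun g => b.coeff g) = b := by
  ext t
  rw [coeff_el]

lemma coeff_mul_el (u : MonoidAlgebra ℚ G) (α : G → ℚ) (t : G) :
    (u * el α).coeff t = ∑ h, u.coeff (t * h⁻¹) * α h := by
  unfold el
  rw [Finset.mul_sum, MonoidAlgebra.coeff_sum, Finsupp.finsetSum_apply]
  refine Finset.sum_congr rfl fun h _ => ?_
  rw [MonoidAlgebra.coeff_mul_single_apply]

lemma inj_aux (K V : Type w) [Field K] [CharZero K] [AddCommGroup V] [Module K V]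
    [Module.Finite K V] (π : G →* Module.End K V) (x : V)
    (hx : LinearIndependent K (fun g : G => π g x)) (ψ : G → ℚ)
    (hψ : ∀ g, (ψ g : K) = LinearMap.trace K V (π g)) (α : G → ℚ)
    (h : el ψ * el α = 0) : α = 0 := by
  classical
  let _ : Algebra ℚ (Module.End K V) := Algebra.compHom (Module.End K V) (algebraMap ℚ K)
  have hsm : ∀ (r : ℚ) (f : Module.End K V), r • f = (r : K) • f := fun r f => rfl
  set P : MonoidAlgebra ℚ G →ₐ[ℚ] Module.End K V := MonoidAlgebra.lift ℚ (Module.End K V) G π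
    with hP
  have Pel : ∀ β : G → ℚ, P (el β) = ∑ g, (β g : K) • π g := by
    intro β
    unfold el
    rw [map_sum]
    refine Finset.sum_congr rfl fun g _ => ?_
    rw [hP, MonoidAlgebra.lift_single, hsm]
  have h' : ∀ t, ∑ g, ψ (t * g⁻¹) * α g = 0 := by
    intro t
    have h1 := coeff_mul_el (el ψ) α t
    rw [h] at h1
    simp only [coeff_el] at h1
    rw [← h1]
    simp
  set a : MonoidAlgebra ℚ G := el (fun g => α g⁻¹) with ha
  have hT1 : ∀ t, LinearMap.trace K V (π t * P a) = 0 := by
    intro t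
    rw [ha, Pel, Finset.mul_sum, map_sum]
    have h2 : ∀ g, LinearMap.trace K V (π t * ((α g⁻¹ : ℚ) : K) • π g) =
        ((ψ (t * g) * α g⁻¹ : ℚ) : K) := by
      intro g
      rw [mul_smul_comm, map_smul, ← map_mul, ← hψ, smul_eq_mul]
      push_cast
      ring
    simp only [h2]
    rw [← Rat.cast_sum]
    have h3 : ∑ g, ψ (t * g) * α g⁻¹ = ∑ g, ψ (t * g⁻¹) * α g := by
      rw [← Equiv.sum_comp (Equiv.inv G)]
      simp
    rw [h3, h' t, Rat.cast_zero]
  have hT : ∀ b, LinearMap.trace K V (P (b * a)) = 0 := by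
    intro b
    rw [← el_coeff b, map_mul, Pel, Finset.sum_mul, map_sum]
    refine Finset.sum_eq_zero fun g _ => ?_
    rw [smul_mul_assoc, map_smul, hT1, smul_zero]
  obtain ⟨e, he, hspan⟩ := IsSemisimpleRing.ideal_eq_span_idempotent (Ideal.span {a})
  have hmem : e ∈ Ideal.span {a} := by
    rw [hspan]
    exact Ideal.subset_span rfl
  obtain ⟨b, hb⟩ := Ideal.mem_span_singleton'.1 hmem
  have htr : LinearMap.trace K V (P e) = 0 := by
    rw [← hb]
    exact hT b
  have hid : IsIdempotentElem (P e) := he.map P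
  have hPe : P e = 0 := (LinearMap.IsIdempotentElem.trace_eq_zero_iff hid).1 htr
  have he0 : e = 0 := by
    rw [← el_coeff e, Pel] at hPe
    have h4 := congrArg (fun f : Module.End K V => f x) hPe
    simp only [LinearMap.sum_apply, LinearMap.smul_apply, LinearMap.zero_apply] at h4
    have h5 := Fintype.linearIndependent_iff.1 hx _ h4
    rw [← el_coeff e]
    unfold el
    refine Finset.sum_eq_zero fun g _ => ?_
    have h6 : e.coeff g = 0 := by exact_mod_cast h5 g
    change MonoidAlgebra.single g (e.coeff g) = 0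
    rw [h6, MonoidAlgebra.single_zero]
  have ha0 : a = 0 := by
    have : a ∈ Ideal.span {a} := Ideal.subset_span rfl
    rw [hspan, he0] at this
    simpa using this
  funext g
  have h7 := coeff_el (fun g => α g⁻¹) g⁻¹
  rw [← ha, ha0] at h7
  simpa using h7.symm

end

/-- REG: the sum over the character is a unit. -/
theorem t_REG : S_REG.{v, w} := by
  intro K V _ _ _ _ _ G _ _ π x hx ψ hψ A _ _ ρ
  classical
  have _ : Module.Finite ℚ (MonoidAlgebra ℚ G) :=
    Module.Finite.equiv (MonoidAlgebra.coeffLinearEquiv (S := ℚ) (M := G) ℚ).symm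
  have hinj : ∀ b : MonoidAlgebra ℚ G, el ψ * b = 0 → b = 0 := by
    intro b hb
    rw [← el_coeff b] at hb ⊢
    rw [inj_aux K V π x hx ψ hψ _ hb]
    simp [el]
  have hsurj : Function.Surjective (LinearMap.mulLeft ℚ (el ψ)) := by
    refine LinearMap.injective_iff_surjective.1 ?_
    refine (injective_iff_map_eq_zero _).2 fun b hb => hinj b hb
  obtain ⟨y, hy⟩ := hsurj 1
  have hy' : el ψ * y = 1 := hy
  have hy2 : y * el ψ = 1 := by
    have : el ψ * (y * el ψ - 1) = 0 := by
      rw [mul_sub, ← mul_assoc, hy', one_mul, mul_one, sub_self]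
    exact sub_eq_zero.1 (hinj _ this)
  have hu : IsUnit (el ψ) := ⟨⟨el ψ, y, hy', hy2⟩, rfl⟩
  have h1 := hu.map (MonoidAlgebra.lift ℚ A G ρ)
  have h2 : MonoidAlgebra.lift ℚ A G ρ (el ψ) = ∑ g : G, ψ g • ρ g := by
    unfold el
    rw [map_sum]
    exact Finset.sum_congr rfl fun g _ => MonoidAlgebra.lift_single _ _ _
  rwa [h2] at h1

end Pool.Agent.K3h52.IQ
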